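import Pool.Agent.helper4.QX.SpecD
import Pool.Agent.helper23.RP.PUS

set_option autoImplicit false

/-! # MP_07c750, project QX, row PRB -/

open scoped MatrixGroups ContDiff Topology UpperHalfPlane
open UpperHalfPlane MeasureTheory ProbabilityTheory Filter Set Polynomial
open Pool.Agent.QU Pool.Agent.RP

namespace Pool.Agent.QX

/-! ### Images of matrices -/

section push

variable {G H : Type} [Group G] [Group H]

private theorem PRB_SA {D : ℕ} (f : G →* H) {P : Mat D G} (h : SA P) : SA (pushM f P) := by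
  intro i j
  show adj (push f (P i j)) = push f (P j i)
  rw [← (PUS G H f (P i j) (P i j)).2.2.2.1, h i j]

private theorem PRB_Sup {D : ℕ} (f : G →* H) {P : Mat D G} {S : Set G} {S' : Set H} (h : Sup P S)
    (hS : ∀ γ ∈ S, f γ ∈ S') : Sup (pushM f P) S' := by
  intro i j x hx
  obtain ⟨γ, hγ, rfl⟩ := PUS_supp f (P i j) x hx
  exact hS γ (h i j γ hγ)

private theorem PRB_rep {V : Type} [NormedAddCommGroup V] [InnerProductSpace ℂ V]
    (f : G →* H) (ρ : H →* (V ≃ₗᵢ[ℂ] V)) (a : MonoidAlgebra ℂ G) :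
    rep ρ (push f a) = rep (ρ.comp f) a :=
  ((PUS G H f a a).2.2.2.2.2.2.1 V ρ).symm

private theorem PRB_UnB {D : ℕ} (f : G →* H) {P : Mat D G} {K : ℝ} (h : UnB P K) :
    UnB (pushM f P) K := by
  intro V _ _ _ ρ v
  have h1 := h V (ρ.comp f) v
  have h2 : ∀ i j, rep ρ (pushM f P i j) = rep (ρ.comp f) (P i j) := fun i j => PRB_rep f ρ (P i j)
  simp only [h2]
  exact h1

private theorem PRB_RepB {D : ℕ} {V : Type} [NormedAddCommGroup V] [InnerProductSpace ℂ V]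
    (f : G →* H) (ρ : H →* (V ≃ₗᵢ[ℂ] V)) {P : Mat D G} {r : ℝ} (h : RepB ρ (pushM f P) r) :
    RepB (ρ.comp f) P r := by
  intro v
  have h1 := h v
  have h2 : ∀ i j, rep ρ (pushM f P i j) = rep (ρ.comp f) (P i j) := fun i j => PRB_rep f ρ (P i j)
  simp only [h2] at h1
  exact h1

private theorem PRB_inv (e : G ≃* H) (a : MonoidAlgebra ℂ H) :
    push e.toMonoidHom (push e.symm.toMonoidHom a) = a := by
  rw [PUS_eq, PUS_eq]
  have h1 : (PUS_hom e.toMonoidHom).comp (PUS_hom e.symm.toMonoidHom) =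
      AlgHom.id ℂ (MonoidAlgebra ℂ H) := by
    apply MonoidAlgebra.algHom_ext
    · intro x
      rw [AlgHom.comp_apply, AlgHom.id_apply, ← PUS_eq, ← PUS_eq, PUS_single, PUS_single]
      simp
    · exact Subsingleton.elim _ _
  have h2 := congrArg (fun φ : MonoidAlgebra ℂ H →ₐ[ℂ] MonoidAlgebra ℂ H => φ a) h1
  exact h2

private theorem PRB_RegB {D : ℕ} (e : G ≃* H) {P : Mat D G} {r : ℝ} (h : RegB P r) :
    RegB (pushM e.toMonoidHom P) r := by
  intro u
  have hl : ∀ a : MonoidAlgebra ℂ G, l2 (push e.toMonoidHom a) = l2 a := fun a =>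
    (PUS G H e.toMonoidHom a a).2.2.2.2.2.1 (e.injective.injOn)
  have h1 := h (fun j => push e.symm.toMonoidHom (u j))
  have h2 : ∀ i, ∑ j, pushM e.toMonoidHom P i j * u j =
      push e.toMonoidHom (∑ j, P i j * push e.symm.toMonoidHom (u j)) := by
    intro i
    rw [PUS_eq, map_sum]
    refine Finset.sum_congr rfl fun j _ => ?_
    rw [map_mul, ← PUS_eq, ← PUS_eq, PRB_inv]
    rfl
  have h3 : ∀ j, l2 (push e.symm.toMonoidHom (u j)) = l2 (u j) := by
    intro j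
    rw [← hl, PRB_inv]
  simp only [h3] at h1
  simp only [h2, hl]
  exact h1

end push

/-! ### Numbers -/

private theorem PRB_T {X : ℝ} (hX : 1 ≤ X) : Real.log (2 + Real.exp X) ≤ 2 * X ∧
    0 < Real.log (2 + Real.exp X) ∧ 2 + Real.exp X ≤ Real.exp (2 * X) := by
  have h0 : 0 < Real.exp X := Real.exp_pos X
  have h1 : 2 ≤ Real.exp X := by
    have := Real.add_one_le_exp X
    linarith
  have h2 : 2 + Real.exp X ≤ Real.exp (2 * X) := by
    have h3 : Real.exp (2 * X) = Real.exp X * Real.exp X := by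
      rw [← Real.exp_add]
      ring_nf
    rw [h3]
    nlinarith
  refine ⟨?_, Real.log_pos (by linarith), h2⟩
  rw [Real.log_le_iff_le_exp (by linarith)]
  exact h2

private theorem PRB_num (a a' : ℕ) (A K δ : ℝ) (hA : 1 ≤ A) (hK : 1 ≤ K) (hδ : 0 < δ) :
    ∃ X₀ : ℝ, 1 ≤ X₀ ∧ ∀ X : ℝ, X₀ ≤ X → ∀ q j : ℕ, X ^ 2 ≤ q → (q : ℝ) ≤ 2 * X ^ 2 →
      X ^ 4 ≤ (2 : ℝ) ^ j → (2 : ℝ) ^ j ≤ 2 * X ^ 4 →
      a' * (⌈A * Real.log (2 + Real.exp X)⌉₊ + 1) ≤ q ∧
      (∀ k : ℕ, (k : ℝ) ≤ A * (2 + Real.exp X) ^ 8 →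
        (k : ℝ) * (((a * (2 ^ j * q + 1) * (2 ^ j * q) : ℕ) : ℝ) + 1) ^ 2 * K ^ (2 ^ j) ≤
          (K + δ / 2) ^ (2 ^ j) ∧ (k : ℝ) ≤ Real.exp (X ^ 16)) ∧
      ((a * (2 ^ j * q + 1) * q : ℕ) : ℝ) ≤ X ^ 16 ∧
      2 * K / (δ / 2) ≤ X ^ 16 ∧
      ((⌊Real.exp X * Real.log (2 + Real.exp X) ^ 2 / δ⌋₊ + 1 : ℕ) : ℝ) * Real.exp (-X ^ 16) ≤
        Real.exp (-X) := by
  set κ := δ / (2 * K) with hκ
  have hκ0 : 0 < κ := by positivity
  set lam := Real.log (1 + κ) with hlam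
  have hlam0 : 0 < lam := Real.log_pos (by linarith)
  have ha0 : (0 : ℝ) ≤ a := Nat.cast_nonneg a
  have ha'0 : (0 : ℝ) ≤ a' := Nat.cast_nonneg a'
  have hq1 : 0 ≤ (a' : ℝ) * (2 * A + 2) := by positivity
  have hq2 : 0 ≤ 4 * K / δ := by positivity
  have hq3 : 0 ≤ 4 / δ := by positivity
  have hq4 : 0 ≤ 1 / lam := by positivity
  refine ⟨1 + (a' : ℝ) * (2 * A + 2) + 10 * a + 4 * K / δ + 4 / δ + 1 / lam + (A + 42 * a + 40), by
    linarith, ?_⟩
  intro X hX q j hq hq' hj hj'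
  have hX1 : 1 ≤ X := by linarith
  have hX0 : 0 < X := by linarith
  have hXa' : (a' : ℝ) * (2 * A + 2) ≤ X := by linarith
  have hXa : 10 * (a : ℝ) ≤ X := by linarith
  have hXK : 4 * K / δ ≤ X := by linarith
  have hXδ : 4 / δ + 4 ≤ X := by linarith
  have hXl : 1 / lam ≤ X := by linarith
  have hXA : A + 42 * a + 40 ≤ X := by linarith
  obtain ⟨hT1, hT0, hb⟩ := PRB_T hX1
  set T := Real.log (2 + Real.exp X) with hT
  have hpow : ∀ m n : ℕ, m ≤ n → X ^ m ≤ X ^ n := fun m n hmn => pow_le_pow_right₀ hX1 hmn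
  have hX16 : X ≤ X ^ 16 := by
    have := hpow 1 16 (by norm_num)
    rwa [pow_one] at this
  have hX2_16 : X ^ 2 ≤ X ^ 16 := hpow 2 16 (by norm_num)
  have hAX : A ≤ Real.exp A := by
    have := Real.add_one_le_exp A
    linarith
  have hXX : X ≤ Real.exp X := by
    have := Real.add_one_le_exp X
    linarith
  have hexp16 : (2 + Real.exp X) ^ 8 ≤ Real.exp (16 * X) := by
    have h1 : Real.exp (16 * X) = Real.exp (2 * X) ^ 8 := by
      rw [← Real.exp_nat_mul]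
      congr 1
      push_cast
      ring
    rw [h1]
    exact pow_le_pow_left₀ (by positivity) hb 8
  have hk1 : ∀ k : ℕ, (k : ℝ) ≤ A * (2 + Real.exp X) ^ 8 → (k : ℝ) ≤ Real.exp (A + 16 * X) := by
    intro k hk
    rw [Real.exp_add]
    refine hk.trans ?_
    exact mul_le_mul hAX hexp16 (by positivity) (Real.exp_pos _).le
  have h2j : (0 : ℝ) ≤ (2 : ℝ) ^ j := by positivity
  have hqq : (0 : ℝ) ≤ q := Nat.cast_nonneg q
  have hprod : (2 : ℝ) ^ j * q ≤ 4 * X ^ 6 := by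
    calc (2 : ℝ) ^ j * q ≤ (2 * X ^ 4) * (2 * X ^ 2) :=
          mul_le_mul hj' hq' hqq (by positivity)
      _ = 4 * X ^ 6 := by ring
  have hprod1 : (2 : ℝ) ^ j * q + 1 ≤ 5 * X ^ 6 := by
    have : (1 : ℝ) ≤ X ^ 6 := one_le_pow₀ hX1
    linarith
  refine ⟨?_, ?_, ?_, ?_, ?_⟩
  · -- (d)
    have h1 : (⌈A * T⌉₊ : ℝ) < A * T + 1 := Nat.ceil_lt_add_one (by positivity)
    have h2 : A * T ≤ 2 * A * X := by
      have := mul_le_mul_of_nonneg_left hT1 (by linarith : (0 : ℝ) ≤ A)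
      linarith
    have h3 : (a' : ℝ) * ((⌈A * T⌉₊ : ℝ) + 1) ≤ X ^ 2 := by
      calc (a' : ℝ) * ((⌈A * T⌉₊ : ℝ) + 1) ≤ (a' : ℝ) * (2 * A * X + 2) :=
            mul_le_mul_of_nonneg_left (by linarith) ha'0
        _ ≤ (a' : ℝ) * ((2 * A + 2) * X) := by
            apply mul_le_mul_of_nonneg_left _ ha'0
            linarith
        _ = ((a' : ℝ) * (2 * A + 2)) * X := by ring
        _ ≤ X * X := mul_le_mul_of_nonneg_right hXa' hX0.le
        _ = X ^ 2 := by ring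
    have h4 : ((a' * (⌈A * T⌉₊ + 1) : ℕ) : ℝ) ≤ (q : ℝ) := by
      push_cast
      exact h3.trans hq
    exact_mod_cast h4
  · -- (e), (h)
    intro k hk
    have hk2 := hk1 k hk
    refine ⟨?_, ?_⟩
    · have h1 : K + δ / 2 = K * (1 + κ) := by
        rw [hκ]
        field_simp
      rw [h1, mul_pow, mul_comm]
      apply mul_le_mul_of_nonneg_left _ (by positivity)
      have h2 : (((a * (2 ^ j * q + 1) * (2 ^ j * q) : ℕ) : ℝ) + 1) ≤ Real.exp (21 * a + 12 * X) := by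
        push_cast
        have h3 : (a : ℝ) * ((2 : ℝ) ^ j * q + 1) * ((2 : ℝ) ^ j * q) ≤ a * (5 * X ^ 6) * (4 * X ^ 6) := by
          apply mul_le_mul _ hprod (by positivity) (by positivity)
          exact mul_le_mul_of_nonneg_left hprod1 ha0
        have h4 : (1 : ℝ) ≤ X ^ 12 := one_le_pow₀ hX1
        have h5 : (a : ℝ) * ((2 : ℝ) ^ j * q + 1) * ((2 : ℝ) ^ j * q) + 1 ≤ (20 * a + 1) * X ^ 12 := by
          have h6 : a * (5 * X ^ 6) * (4 * X ^ 6) = 20 * a * X ^ 12 := by ring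
          rw [h6] at h3
          linarith
        refine h5.trans ?_
        rw [Real.exp_add]
        have h7 : (20 * (a : ℝ) + 1) ≤ Real.exp (21 * a) := by
          have := Real.add_one_le_exp (21 * (a : ℝ))
          linarith
        have h8 : X ^ 12 ≤ Real.exp (12 * X) := by
          have h9 : Real.exp (12 * X) = Real.exp X ^ 12 := by
            rw [← Real.exp_nat_mul]
            congr 1
          rw [h9]
          exact pow_le_pow_left₀ hX0.le hXX 12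
        exact mul_le_mul h7 h8 (by positivity) (Real.exp_pos _).le
      have h3 : (k : ℝ) * (((a * (2 ^ j * q + 1) * (2 ^ j * q) : ℕ) : ℝ) + 1) ^ 2 ≤
          Real.exp (A + 42 * a + 40 * X) := by
        have h4 : Real.exp (A + 42 * a + 40 * X) =
            Real.exp (A + 16 * X) * Real.exp (21 * a + 12 * X) ^ 2 := by
          rw [← Real.exp_nat_mul, ← Real.exp_add]
          congr 1
          push_cast
          ring
        rw [h4]
        apply mul_le_mul hk2 _ (by positivity) (Real.exp_pos _).le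
        exact pow_le_pow_left₀ (by positivity) h2 2
      refine h3.trans ?_
      have h5 : (1 + κ) ^ (2 ^ j) = Real.exp (lam * (2 : ℝ) ^ j) := by
        rw [hlam, mul_comm]
        have h6 : ((2 : ℝ) ^ j) = ((2 ^ j : ℕ) : ℝ) := by push_cast; rfl
        rw [h6, Real.exp_nat_mul, Real.exp_log (by linarith)]
      rw [h5]
      apply Real.exp_le_exp.mpr
      have h6 : 1 ≤ lam * X := by
        rw [div_le_iff₀ hlam0] at hXl
        linarith
      have h7 : A + 42 * a + 40 * X ≤ X ^ 2 := by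
        have h71 : (A + 42 * a + 40) * X ≤ X * X := mul_le_mul_of_nonneg_right hXA hX0.le
        have h72 : A + 42 * a ≤ (A + 42 * a) * X := le_mul_of_one_le_right (by linarith) hX1
        have h73 : X * X = X ^ 2 := by ring
        linarith
      have h8 : X ^ 2 ≤ lam * X ^ 4 := by
        have h9 : X ^ 2 ≤ X ^ 3 := hpow 2 3 (by norm_num)
        have h10 : X ^ 3 ≤ (lam * X) * X ^ 3 := by
          exact le_mul_of_one_le_left (by positivity) h6
        calc X ^ 2 ≤ X ^ 3 := h9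
          _ ≤ (lam * X) * X ^ 3 := h10
          _ = lam * X ^ 4 := by ring
      have h9 : lam * X ^ 4 ≤ lam * (2 : ℝ) ^ j := mul_le_mul_of_nonneg_left hj hlam0.le
      linarith
    · refine hk2.trans (Real.exp_le_exp.mpr ?_)
      have h1 : (A + 16) * X ≤ X * X := mul_le_mul_of_nonneg_right (by linarith) hX0.le
      have h2 : A ≤ A * X := le_mul_of_one_le_right (by linarith) hX1
      have h3 : X * X = X ^ 2 := by ring
      linarith
  · -- (f)
    push_cast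
    have h1 : (a : ℝ) * ((2 : ℝ) ^ j * q + 1) * q ≤ a * (5 * X ^ 6) * (2 * X ^ 2) := by
      apply mul_le_mul _ hq' hqq (by positivity)
      exact mul_le_mul_of_nonneg_left hprod1 ha0
    have h2 : (a : ℝ) * (5 * X ^ 6) * (2 * X ^ 2) = (10 * a) * X ^ 8 := by ring
    have h3 : (10 * (a : ℝ)) * X ^ 8 ≤ X ^ 8 * X ^ 8 := by
      apply mul_le_mul_of_nonneg_right _ (by positivity)
      have := hpow 1 8 (by norm_num)
      rw [pow_one] at this
      linarith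
    have h4 : X ^ 8 * X ^ 8 = X ^ 16 := by ring
    linarith
  · -- (g)
    have h1 : 2 * K / (δ / 2) = 4 * K / δ := by
      field_simp
      norm_num
    rw [h1]
    linarith
  · -- (i)
    have h1 : ((⌊Real.exp X * T ^ 2 / δ⌋₊ + 1 : ℕ) : ℝ) ≤ Real.exp X * T ^ 2 / δ + 1 := by
      push_cast
      have := Nat.floor_le (show 0 ≤ Real.exp X * T ^ 2 / δ by positivity)
      linarith
    have h2 : T ^ 2 ≤ 4 * X ^ 2 := by
      have := pow_le_pow_left₀ hT0.le hT1 2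
      have h21 : (2 * X) ^ 2 = 4 * X ^ 2 := by ring
      linarith
    have h3 : X ^ 2 ≤ Real.exp (2 * X) := by
      have h4 : Real.exp (2 * X) = Real.exp X ^ 2 := by
        rw [← Real.exp_nat_mul]
        congr 1
      rw [h4]
      exact pow_le_pow_left₀ hX0.le hXX 2
    have h4 : Real.exp X * T ^ 2 / δ ≤ 4 / δ * Real.exp (3 * X) := by
      have h5 : Real.exp (3 * X) = Real.exp X * Real.exp (2 * X) := by
        rw [← Real.exp_add]
        congr 1
        ring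
      rw [h5]
      have h6 : Real.exp X * T ^ 2 ≤ Real.exp X * (4 * Real.exp (2 * X)) :=
        mul_le_mul_of_nonneg_left (by linarith) (Real.exp_pos _).le
      calc Real.exp X * T ^ 2 / δ ≤ Real.exp X * (4 * Real.exp (2 * X)) / δ :=
            div_le_div_of_nonneg_right h6 hδ.le
        _ = 4 / δ * (Real.exp X * Real.exp (2 * X)) := by ring
    have h5 : (1 : ℝ) ≤ Real.exp (3 * X) := Real.one_le_exp (by linarith)
    have h6 : ((⌊Real.exp X * T ^ 2 / δ⌋₊ + 1 : ℕ) : ℝ) ≤ Real.exp (4 / δ + 3 * X) := by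
      rw [Real.exp_add]
      have h7 := Real.add_one_le_exp (4 / δ)
      calc ((⌊Real.exp X * T ^ 2 / δ⌋₊ + 1 : ℕ) : ℝ) ≤ 4 / δ * Real.exp (3 * X) + Real.exp (3 * X) := by
            linarith
        _ = (4 / δ + 1) * Real.exp (3 * X) := by ring
        _ ≤ _ := mul_le_mul_of_nonneg_right h7 (Real.exp_pos _).le
    calc ((⌊Real.exp X * T ^ 2 / δ⌋₊ + 1 : ℕ) : ℝ) * Real.exp (-X ^ 16)
        ≤ Real.exp (4 / δ + 3 * X) * Real.exp (-X ^ 16) :=
          mul_le_mul_of_nonneg_right h6 (Real.exp_pos _).le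
      _ = Real.exp (4 / δ + 3 * X + -X ^ 16) := (Real.exp_add _ _).symm
      _ ≤ Real.exp (-X) := by
          apply Real.exp_le_exp.mpr
          have h7 : (4 / δ + 4) * X ≤ X * X := mul_le_mul_of_nonneg_right hXδ hX0.le
          have h8 : 4 / δ ≤ 4 / δ * X := le_mul_of_one_le_right hq3 hX1
          have h9 : X * X = X ^ 2 := by ring
          linarith

private theorem PRB_qj (X : ℝ) : ∃ qj : ℕ × ℕ, 1 ≤ X → (X ^ 2 ≤ qj.1 ∧ (qj.1 : ℝ) ≤ 2 * X ^ 2 ∧
    X ^ 4 ≤ (2 : ℝ) ^ qj.2 ∧ (2 : ℝ) ^ qj.2 ≤ 2 * X ^ 4) := by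
  by_cases hX : 1 ≤ X
  · have h4 : (1 : ℝ) ≤ X ^ 4 := one_le_pow₀ hX
    obtain ⟨n, hn1, hn2⟩ := exists_nat_pow_near h4 (show (1 : ℝ) < 2 by norm_num)
    refine ⟨(⌈X ^ 2⌉₊, n + 1), fun _ => ⟨Nat.le_ceil _, ?_, hn2.le, ?_⟩⟩
    · have h2 : (1 : ℝ) ≤ X ^ 2 := one_le_pow₀ hX
      have h3 : (⌈X ^ 2⌉₊ : ℝ) < X ^ 2 + 1 := Nat.ceil_lt_add_one (by positivity)
      show (⌈X ^ 2⌉₊ : ℝ) ≤ 2 * X ^ 2
      linarith
    · show (2 : ℝ) ^ (n + 1) ≤ 2 * X ^ 4
      rw [pow_succ]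
      linarith
  · exact ⟨(0, 0), fun h => absurd h hX⟩

/-! ### The row -/

private theorem PRB_SLen {g m n : ℕ} (h : m ≤ n) : SLen g m ⊆ SLen g n := by
  rintro γ ⟨l, hl, rfl⟩
  exact ⟨l, hl.trans h, rfl⟩

theorem PRB (h1 : SCU_stmt) (h2 : LMQ_stmt) (h3 : DET_stmt) (h4 : SVM_stmt) : PRB_stmt := by
  classical
  obtain ⟨c, s₀, hs₀, N₁, hN₁, hSCU⟩ := h1
  refine ⟨c, s₀ / 16, by positivity, ?_⟩
  intro Γ g e hg hΓ
  obtain ⟨a, ha, hLMQ⟩ := h2 g hg
  have hs : 0 < s₀ / 16 := by positivity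
  choose qj hqj using fun N : ℕ => PRB_qj ((N : ℝ) ^ (s₀ / 16))
  choose θ' hθ1 hθ2 using hLMQ
  refine ⟨fun N => (θ' (qj N).1 (qj N).2).comp e.toMonoidHom, ?_⟩
  intro F h hF hInv hint ε hε
  obtain ⟨K, δ, A, hK, hδ, hA, hDET⟩ := h3 Γ F h hΓ hF hInv hint ε hε
  obtain ⟨a', ha', hSVM⟩ := h4 Γ F g e hΓ hF
  obtain ⟨X₀, hX₀, hnum⟩ := PRB_num a a' A K δ hA hK hδ
  have htend : Tendsto (fun N : ℕ => (N : ℝ) ^ (s₀ / 16)) atTop atTop :=
    (tendsto_rpow_atTop hs).comp tendsto_natCast_atTop_atTop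
  obtain ⟨N₂, hN₂⟩ := (htend.eventually_ge_atTop X₀).exists_forall_of_atTop
  refine ⟨max N₁ N₂, fun N hN => ?_⟩
  have hNN₁ : N₁ ≤ N := (le_max_left _ _).trans hN
  have hXX₀ : X₀ ≤ (N : ℝ) ^ (s₀ / 16) := hN₂ N ((le_max_right _ _).trans hN)
  set X : ℝ := (N : ℝ) ^ (s₀ / 16) with hX
  have hX1 : 1 ≤ X := hX₀.trans hXX₀
  have hX16 : (N : ℝ) ^ s₀ = X ^ 16 := by
    rw [hX, ← Real.rpow_natCast, ← Real.rpow_mul (Nat.cast_nonneg N)]
    congr 1
    push_cast
    ring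
  obtain ⟨hq1, hq2, hj1, hj2⟩ := hqj N hX1
  obtain ⟨n1, n2, n3, n4, n5⟩ := hnum X hXX₀ (qj N).1 (qj N).2 hq1 hq2 hj1 hj2
  obtain ⟨hT1, hT0, hb⟩ := PRB_T hX1
  set b : ℝ := Real.exp X with hbdef
  set T : ℝ := Real.log (2 + b) with hTdef
  set q := (qj N).1 with hqdef
  set j := (qj N).2 with hjdef
  have hb0 : 0 ≤ b := (Real.exp_pos X).le
  -- one grid point
  have hone : ∀ i : ℕ, ∃ Bi : Set (GI N → ℝ), (gau (GI N)).real Bi ≤ Real.exp (-X ^ 16) ∧
      ((i : ℝ) * (δ / T ^ 2) ≤ b → ∀ x : GI N → ℝ, x ∉ Bi →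
        ∀ (φ : ℍ → EuclideanSpace ℂ (Fin N)) (μ : ℝ),
          IsEigensection ((UR c x).comp ((θ' q j).comp e.toMonoidHom)) μ φ → 0 ≤ μ → μ ≤ b →
          |μ - (i : ℝ) * (δ / T ^ 2)| ≤ δ / T ^ 2 →
          ∫ z in F, h z * ‖φ z‖ ^ 2 ≤ ε * ∫ z in F, ‖φ z‖ ^ 2) := by
    intro i
    by_cases hi : (i : ℝ) * (δ / T ^ 2) ≤ b
    · obtain ⟨k, P, hk1, hkA, hSA, hUnB, hRegB, hSup, hcon⟩ :=
        hDET b ((i : ℝ) * (δ / T ^ 2)) hb0 (by positivity) hi
      obtain ⟨m1, m2⟩ := n2 k hkA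
      -- the image in the surface group
      have hSup1 : Sup (pushM e.toMonoidHom P) (SLen g q) := by
        refine PRB_Sup _ hSup ?_
        intro γ hγ
        have h5 := hSVM (A * T) ⌈A * T⌉₊ (by positivity) (Nat.le_ceil _) γ hγ
        exact PRB_SLen n1 h5
      have hSA1 : SA (pushM e.toMonoidHom P) := PRB_SA _ hSA
      have hReg1 : RegB (pushM e.toMonoidHom P) K := PRB_RegB e hRegB
      have hReg2 : RegB (pushM (θ' q j) (pushM e.toMonoidHom P)) (K + δ / 2) :=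
        hθ2 q j k _ K (K + δ / 2) hSA1 hSup1 (by linarith) (by linarith) hReg1 m1
      have hSup2 : Sup (pushM (θ' q j) (pushM e.toMonoidHom P))
          {w | w.norm ≤ a * (2 ^ j * q + 1) * q} :=
        PRB_Sup _ hSup1 fun γ hγ => hθ1 q j q γ hγ
      have hUn2 : UnB (pushM (θ' q j) (pushM e.toMonoidHom P)) (2 * K) :=
        PRB_UnB _ (PRB_UnB _ hUnB)
      have hprob := hSCU N hNN₁ k (a * (2 ^ j * q + 1) * q) _ (2 * K) (K + δ / 2) (δ / 2) hk1
        (PRB_SA _ hSA1) hSup2 hUn2 hReg2 (by linarith) (by linarith) (by linarith)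
        (by rw [hX16]; exact n3) (by rw [hX16]; exact n4) (by rw [hX16]; exact m2)
      rw [hX16] at hprob
      refine ⟨_, hprob, fun _ x hx φ μ hφ hμ0 hμb hμi => ?_⟩
      have hRep : RepB (UR c x) (pushM (θ' q j) (pushM e.toMonoidHom P)) (K + δ / 2 + δ / 2) := by
        by_contra hcon'
        exact hx hcon'
      have hRep2 : RepB ((UR c x).comp ((θ' q j).comp e.toMonoidHom)) P (K + δ) := by
        have h6 := PRB_RepB _ _ (PRB_RepB _ _ hRep)
        have h7 : K + δ / 2 + δ / 2 = K + δ := by ring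
        rw [h7] at h6
        exact h6
      exact hcon (EuclideanSpace ℂ (Fin N)) _ hRep2 φ μ hφ hμ0 hμb hμi
    · refine ⟨∅, ?_, fun h => absurd h hi⟩
      rw [measureReal_empty]
      exact (Real.exp_pos _).le
  choose Bi hBi1 hBi2 using hone
  refine ⟨⋃ i ∈ Finset.range (⌊b * T ^ 2 / δ⌋₊ + 1), Bi i, ?_, ?_⟩
  · refine (measureReal_biUnion_finset_le _ _).trans ?_
    calc ∑ i ∈ Finset.range (⌊b * T ^ 2 / δ⌋₊ + 1), (gau (GI N)).real (Bi i)
        ≤ ∑ i ∈ Finset.range (⌊b * T ^ 2 / δ⌋₊ + 1), Real.exp (-X ^ 16) :=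
          Finset.sum_le_sum fun i _ => hBi1 i
      _ = ((⌊b * T ^ 2 / δ⌋₊ + 1 : ℕ) : ℝ) * Real.exp (-X ^ 16) := by
          rw [Finset.sum_const, Finset.card_range, nsmul_eq_mul]
      _ ≤ Real.exp (-X) := n5
  · intro x hx φ μ hφ hμ0 hμb
    have hT2 : 0 < T ^ 2 := by positivity
    have hstep : 0 < δ / T ^ 2 := by positivity
    set i := ⌊μ * T ^ 2 / δ⌋₊ with hi
    have hi1 : (i : ℝ) ≤ μ * T ^ 2 / δ := Nat.floor_le (by positivity)
    have hi2 : μ * T ^ 2 / δ < i + 1 := Nat.lt_floor_add_one _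
    have hiM : i < ⌊b * T ^ 2 / δ⌋₊ + 1 := by
      apply Nat.lt_succ_of_le
      apply Nat.floor_le_floor
      apply div_le_div_of_nonneg_right _ hδ.le
      exact mul_le_mul_of_nonneg_right hμb hT2.le
    have hi3 : (i : ℝ) * (δ / T ^ 2) ≤ μ := by
      have h5 : (i : ℝ) * (δ / T ^ 2) ≤ (μ * T ^ 2 / δ) * (δ / T ^ 2) :=
        mul_le_mul_of_nonneg_right hi1 hstep.le
      have h6 : (μ * T ^ 2 / δ) * (δ / T ^ 2) = μ := by
        field_simp
      linarith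
    have hi4 : μ ≤ (i : ℝ) * (δ / T ^ 2) + δ / T ^ 2 := by
      have h5 : (μ * T ^ 2 / δ) * (δ / T ^ 2) ≤ (i + 1) * (δ / T ^ 2) :=
        mul_le_mul_of_nonneg_right hi2.le hstep.le
      have h6 : (μ * T ^ 2 / δ) * (δ / T ^ 2) = μ := by
        field_simp
      linarith
    have hxi : x ∉ Bi i := by
      intro hxi
      apply hx
      rw [Set.mem_iUnion₂]
      exact ⟨i, Finset.mem_range.mpr hiM, hxi⟩
    refine hBi2 i (hi3.trans hμb) x hxi φ μ hφ hμ0 hμb ?_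
    rw [abs_le]
    constructor <;> linarith

end Pool.Agent.QX
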